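import Pool.Agent.RS.StmtsT

/-!
# Squad RS, row NMD: `N_r` is a submodule
-/

set_option autoImplicit false

namespace Pool.Agent.RS.H10

section

variable {B : Type} [CommRing B] [IsDomain B]

theorem good_one (P P' : Subring B) (q : B) : Good P P' q 1 := by
  refine ⟨P.one_mem, 0, P.zero_mem, 1, P.one_mem, ?_, ?_⟩
  · rw [zero_mul, one_mul, zero_add]
    exact P'.one_mem
  · rw [zero_mul, one_mul, zero_add]
    exact one_ne_zero

theorem good_mul (P P' : Subring B) (q u u' : B) (hq : q ∈ P) (h : Good P P' q u)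
    (h' : Good P P' q u') : Good P P' q (u * u') := by
  obtain ⟨hu, α, hα, β, hβ, h1, h2⟩ := h
  obtain ⟨hu', α', hα', β', hβ', h1', h2'⟩ := h'
  have e : (α * α' * q + α * (β' * u') + α' * (β * u)) * q + β * β' * (u * u') =
      (α * q + β * u) * (α' * q + β' * u') := by ring
  refine ⟨P.mul_mem hu hu', α * α' * q + α * (β' * u') + α' * (β * u), ?_, β * β',
    P.mul_mem hβ hβ', ?_, ?_⟩
  · exact P.add_mem (P.add_mem (P.mul_mem (P.mul_mem hα hα') hq)
      (P.mul_mem hα (P.mul_mem hβ' hu'))) (P.mul_mem hα' (P.mul_mem hβ hu))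
  · rw [e]
    exact P'.mul_mem h1 h1'
  · rw [e]
    exact mul_ne_zero h2 h2'

variable {K : Type} [Field K] [Algebra B K]

/-- the denominators may be assumed to be nonzero -/
theorem inN_norm (P : ℕ → Subring B) (q : ℕ → B) (r : ℕ) (w : K) (h : InN P q r w) :
    ∃ (s : ℕ → ℕ) (a u : ℕ → B), (∀ l < r, Good (P l) (P (l + 1)) (q l) (u l)) ∧
    (∀ l, u l ≠ 0) ∧ w = ∑ l ∈ Finset.range r, algebraMap B K (a l) /
        algebraMap B K ((∏ i ∈ Finset.range l, q i) ^ s l * u l) := by
  classical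
  obtain ⟨s, a, u, hg, rfl⟩ := h
  refine ⟨s, fun l => if u l = 0 then 0 else a l, fun l => if u l = 0 then 1 else u l, ?_, ?_, ?_⟩
  · intro l hl
    dsimp only
    split_ifs with hu
    · exact good_one _ _ _
    · exact hg l hl
  · intro l
    dsimp only
    split_ifs with hu
    · exact one_ne_zero
    · exact hu
  · refine Finset.sum_congr rfl fun l _ => ?_
    dsimp only
    by_cases hu : u l = 0
    · rw [if_pos hu, hu, mul_zero, map_zero, div_zero, zero_div]
    · rw [if_neg hu, if_neg hu]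

theorem inN_zero (P : ℕ → Subring B) (q : ℕ → B) (r : ℕ) : InN P q r (0 : K) := by
  refine ⟨fun _ => 0, fun _ => 0, fun _ => 1, fun l _ => good_one _ _ _, ?_⟩
  rw [Finset.sum_eq_zero]
  intro l _
  rw [map_zero, zero_div]

theorem inN_add (hinj : Function.Injective (algebraMap B K)) (P : ℕ → Subring B) (q : ℕ → B)
    (r : ℕ) (hq : ∀ l < r, q l ∈ P l ∧ q l ≠ 0) (w w' : K) (h : InN P q r w)
    (h' : InN P q r w') : InN P q r (w + w') := by
  obtain ⟨s, a, u, hg, hu, rfl⟩ := inN_norm P q r w h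
  obtain ⟨s', a', u', hg', hu', rfl⟩ := inN_norm P q r w' h'
  refine ⟨fun l => s l + s' l, fun l => a l * ((∏ i ∈ Finset.range l, q i) ^ s' l * u' l) +
    (∏ i ∈ Finset.range l, q i) ^ s l * u l * a' l, fun l => u l * u' l, ?_, ?_⟩
  · intro l hl
    exact good_mul _ _ _ _ _ (hq l hl).1 (hg l hl) (hg' l hl)
  · rw [← Finset.sum_add_distrib]
    refine Finset.sum_congr rfl fun l hl => ?_
    have hl' := Finset.mem_range.1 hl
    have hQ : (∏ i ∈ Finset.range l, q i) ≠ 0 :=
      Finset.prod_ne_zero_iff.2 fun i hi => (hq i ((Finset.mem_range.1 hi).trans hl')).2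
    have h1 : algebraMap B K ((∏ i ∈ Finset.range l, q i) ^ s l * u l) ≠ 0 := by
      intro h0
      exact mul_ne_zero (pow_ne_zero _ hQ) (hu l) (hinj (by rw [h0, map_zero]))
    have h2 : algebraMap B K ((∏ i ∈ Finset.range l, q i) ^ s' l * u' l) ≠ 0 := by
      intro h0
      exact mul_ne_zero (pow_ne_zero _ hQ) (hu' l) (hinj (by rw [h0, map_zero]))
    rw [div_add_div _ _ h1 h2, ← map_mul, ← map_mul, ← map_mul, ← map_add]
    congr 2
    ring

theorem inN_mul (P : ℕ → Subring B) (q : ℕ → B) (r : ℕ) (b : B) (w : K) (h : InN P q r w) :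
    InN P q r (algebraMap B K b * w) := by
  obtain ⟨s, a, u, hg, rfl⟩ := h
  refine ⟨s, fun l => b * a l, u, hg, ?_⟩
  rw [Finset.mul_sum]
  refine Finset.sum_congr rfl fun l _ => ?_
  rw [← mul_div_assoc, ← map_mul]

theorem inN_mono (P : ℕ → Subring B) (q : ℕ → B) (r r' : ℕ) (w : K) (hr : r' ≤ r)
    (h : InN P q r' w) : InN P q r w := by
  classical
  obtain ⟨s, a, u, hg, rfl⟩ := h
  refine ⟨s, fun l => if l < r' then a l else 0, fun l => if l < r' then u l else 1, ?_, ?_⟩
  · intro l _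
    dsimp only
    split_ifs with h
    · exact hg l h
    · exact good_one _ _ _
  · have hsub : Finset.range r' ⊆ Finset.range r := fun l hl =>
      Finset.mem_range.2 ((Finset.mem_range.1 hl).trans_le hr)
    rw [← Finset.sum_subset hsub]
    · refine Finset.sum_congr rfl fun l hl => ?_
      dsimp only
      rw [if_pos (Finset.mem_range.1 hl), if_pos (Finset.mem_range.1 hl)]
    · intro l _ hl
      dsimp only
      rw [if_neg fun h => hl (Finset.mem_range.2 h), map_zero, zero_div]

end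

theorem nmd : NmdStmt := by
  intro B K _ _ _ _ hinj P q r h
  exact ⟨inN_zero P q r, fun w w' => inN_add hinj P q r (fun l hl => ⟨(h l hl).1, (h l hl).2.1⟩) w w',
    fun b w => inN_mul P q r b w, fun r' w hr => inN_mono P q r r' w hr⟩

end Pool.Agent.RS.H10
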